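import Pool.Agent.H.MP_342291_lc.C

set_option autoImplicit false

namespace Pool.Agent.Results.MP_342291_lc.Positive

open Pool.Agent.H.MP_342291_lc Pool.Agent.Lib.helper21

theorem result : ∃ (S : Type) (_ : Finite S) (ar : S → ℕ) (R : Set (Tm ar ℕ × Tm ar ℕ)),
    (∃ c, ar c = 0) ∧ R.Finite ∧ (∀ p ∈ R, (∀ x, p.1 ≠ .var x) ∧ p.2.vars ⊆ p.1.vars) ∧
    ¬∃ f : ℕ →. Bool, Partrec f ∧ ∀ φ : Fm 0, ∃ b ∈ f φ.code, (b = true ↔ φ.Sat (Step R) Fin.elim0) := by
  obtain ⟨Q, _, M, q, h⟩ := Queue.exists_cm0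
  cases nonempty_fintype Q
  refine ⟨Sy Q (Finset.univ.sup M.reg), inferInstance, ar, R M q, ⟨.z, rfl⟩, R_fin M q, ?_, fun ⟨f, h1, h2⟩ => h ?_⟩
  · rintro _ ⟨f, j, g, k, -, rfl⟩
    exact ⟨by simp [pat], v_out M k _⟩
  choose b h2 h3 using h2
  have p : ∀ a, Primrec (Nat.pair a) := fun a => Primrec₂.natPair.comp (.const a) .id
  have p' : ∀ a, Primrec (Nat.pair · a) := fun a => Primrec₂.natPair.comp .id (.const a)
  have : Primrec fun k => (Fm.ex (.and (fNum (k + 1)) fM)).code := by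
    simp only [Fm.code, cNum]
    exact (p 4).comp ((p 2).comp ((p' _).comp (.nat_iterate .succ (.const _)
      ((p 4).comp ((p 2).comp ((p' _).comp .snd))).to₂)))
  refine (ComputablePred.computable_iff.2 ⟨_, (h1.comp this.to_comp).of_eq_tot fun k => h2 _, rfl⟩).not.of_eq
    fun k => ?_
  rw [h3, sAll fun q => Finset.le_sup (Finset.mem_univ q), not_not]

end Pool.Agent.Results.MP_342291_lc.Positive
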